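import Pool.Agent.helper55.NK.Spec

/-!
# Row RA1 of project NK
-/

set_option autoImplicit false

namespace Pool.Agent.helper94.NK

open Pool.Agent.NK Finset

/-- Row RA1. -/
theorem RA1 : RA1_stmt := by
  intro a b i j w hi hj hia hjb hw h1 h2
  obtain ⟨i', rfl⟩ : ∃ i', i = i' + 1 := ⟨i - 1, by omega⟩
  simp only [Nat.add_sub_cancel]
  have eA : (a.choose (i' + 1) : ℝ) * ((i' : ℝ) + 1) = (a.choose i' : ℝ) * ((a : ℝ) - i') := by
    have h := Nat.choose_succ_right_eq a i'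
    have h' : ((a - i' : ℕ) : ℝ) = (a : ℝ) - i' := by
      rw [Nat.cast_sub (by omega)]
    rw [← h']
    exact_mod_cast h
  have eB : (b.choose (j + 1) : ℝ) * ((j : ℝ) + 1) = (b.choose j : ℝ) * ((b : ℝ) - j) := by
    have h := Nat.choose_succ_right_eq b j
    have h' : ((b - j : ℕ) : ℝ) = (b : ℝ) - j := by
      rw [Nat.cast_sub hjb]
    rw [← h']
    exact_mod_cast h
  have hi0 : (0 : ℝ) ≤ (i' : ℝ) := Nat.cast_nonneg _
  have hj0 : (1 : ℝ) ≤ (j : ℝ) := by exact_mod_cast hj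
  have hA0 : (0 : ℝ) ≤ (a.choose (i' + 1) : ℝ) := Nat.cast_nonneg _
  have hA'0 : (0 : ℝ) ≤ (a.choose i' : ℝ) := Nat.cast_nonneg _
  have hB0 : (0 : ℝ) ≤ (b.choose j : ℝ) := Nat.cast_nonneg _
  push_cast at h1 ⊢
  unfold r1
  set A := (a.choose (i' + 1) : ℝ)
  set A' := (a.choose i' : ℝ)
  set B := (b.choose j : ℝ)
  set B' := (b.choose (j + 1) : ℝ)
  have hden : 0 < (((i' : ℝ) + 1) * w + 1) * ((j : ℝ) + 1) := by positivity
  rw [div_mul_eq_mul_div, div_le_iff₀ hden]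
  have hjw : 0 ≤ (j : ℝ) * w - 1 := by nlinarith
  -- the chain of inequalities
  have s1 : ((i' : ℝ) + 1) * ((j : ℝ) * w - 1) * (A * B) ≤ (A * ((i' : ℝ) + 1)) * (B * ((b : ℝ) - j)) := by
    have : 0 ≤ A * ((i' : ℝ) + 1) * B := by positivity
    nlinarith [mul_le_mul_of_nonneg_left h2 this]
  have s2 : (A * ((i' : ℝ) + 1)) * (B * ((b : ℝ) - j)) ≤
      A' * B' * ((((i' : ℝ) + 1) * w + 1) * ((j : ℝ) + 1)) := by
    rw [eA, ← eB]
    have hB' : 0 ≤ B' * ((j : ℝ) + 1) := by positivity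
    have h3 : (a : ℝ) - i' ≤ ((i' : ℝ) + 1) * w + 1 := by linarith
    have h4 : A' * ((a : ℝ) - i') ≤ A' * (((i' : ℝ) + 1) * w + 1) :=
      mul_le_mul_of_nonneg_left h3 hA'0
    calc A' * ((a : ℝ) - i') * (B' * ((j : ℝ) + 1))
        ≤ A' * (((i' : ℝ) + 1) * w + 1) * (B' * ((j : ℝ) + 1)) :=
          mul_le_mul_of_nonneg_right h4 hB'
      _ = A' * B' * ((((i' : ℝ) + 1) * w + 1) * ((j : ℝ) + 1)) := by ring
  exact s1.trans s2

end Pool.Agent.helper94.NK
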